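import Pool.Agent.H8.JS.Targets

/-!
# Board js8_modules: the halving encoding (HL), the initial configuration (EI)
-/

set_option autoImplicit false

namespace Pool.Agent.H65.JS

open Pool.Agent.H8.JS

theorem ex1_unique {U : ℕ} {R : ℕ → Prop} {a b : ℕ} (ha : Ex1 U R a) (hb : Ex1 U R b)
    (hbU : b < U) : a = b :=
  ((ha b hbU).1 ((hb b hbU).2 rfl)).symm

theorem ex1_unique' {U : ℕ} {R : ℕ → Prop} {a b : ℕ} (ha : Ex1 U R a) (hb : Ex1 U R b)
    (haU : a < U) : a = b :=
  (ex1_unique hb ha haU).symm

theorem tk_step (hHS : J_HS) (x : List Bool) (i : ℕ) (hi : i < x.length) :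
    ∃ b : Bool, num (x.take (x.length - i)) =
      2 * num (x.take (x.length - (i + 1))) + b.toNat := by
  have hp : x.length - (i + 1) < x.length := by omega
  exact ⟨x[x.length - (i + 1)], (hHS x).2.2 (x.length - (i + 1)) i _ (by omega)
    (List.getElem?_eq_getElem hp)⟩

theorem tk_le (hHS : J_HS) (x : List Bool) (i : ℕ) (hi : i ≤ x.length) :
    num (x.take (x.length - i)) ≤ num x := by
  induction i with
  | zero => exact (hHS x).1.le
  | succ i ih =>
    obtain ⟨b, hb⟩ := tk_step hHS x i (by omega)
    have := ih (by omega)
    omega

theorem toNat_le (b : Bool) : b.toNat ≤ 1 := by cases b <;> simp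

theorem pf_hl (hNU : J_NU) (hHS : J_HS) : J_HL := by
  intro x U n E hx hn
  have hlen := (hNU.2.2.1 x).1
  have hpos : 1 ≤ num x := le_trans Nat.one_le_two_pow hlen
  constructor
  · rintro ⟨h0, h1, hs⟩
    have key : ∀ i, i ≤ n → i ≤ x.length →
        Ex1 U (fun s => E 0 [i, s]) (num (x.take (x.length - i))) := by
      intro i
      induction i with
      | zero =>
        intro _ _
        rw [(hHS x).1]
        exact h0
      | succ i ih =>
        intro hi1 hi2
        have h2 := ih (by omega) (by omega)
        obtain ⟨i', -, h, hhU, h', -, k, -, rfl, h3, h4, h5, h6⟩ := hs i (by omega) (by omega)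
        obtain ⟨b, hb⟩ := tk_step hHS x i (by omega)
        have h7 := ex1_unique h2 h3 hhU
        have hb1 := toNat_le b
        have h8 : h' = num (x.take (x.length - (i + 1))) := by omega
        rw [← h8]
        exact h4
    have hnl : n = x.length := by
      rcases lt_trichotomy n x.length with h | h | h
      · exfalso
        have h2 := key n le_rfl h.le
        have h3 := (hNU.2.2.1 (x.take (x.length - n))).1
        rw [List.length_take, min_eq_left (by omega)] at h3
        have h4 : 2 ≤ num (x.take (x.length - n)) := by
          refine le_trans ?_ h3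
          calc 2 = 2 ^ 1 := rfl
            _ ≤ 2 ^ (x.length - n) := Nat.pow_le_pow_right (by norm_num) (by omega)
        have h5 := tk_le hHS x n h.le
        have h6 := ex1_unique' h1 h2 (by omega)
        omega
      · exact h
      · exfalso
        have h2 := key x.length h.le le_rfl
        rw [(hHS x).2.1] at h2
        have h3 : ∀ i, x.length + 1 + i ≤ n → Ex1 U (fun s => E 0 [x.length + 1 + i, s]) 0 := by
          intro i
          induction i with
          | zero =>
            intro _
            obtain ⟨i', -, h, hhU, h', -, k, -, rfl, h3, h4, h5, h6⟩ :=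
              hs x.length (by omega) (by omega)
            have h7 := ex1_unique h2 h3 hhU
            have h8 : h' = 0 := by omega
            subst h8
            exact h4
          | succ i ih =>
            intro hi
            have h2 := ih (by omega)
            obtain ⟨i', -, h, hhU, h', -, k, -, rfl, h3, h4, h5, h6⟩ :=
              hs (x.length + 1 + i) (by omega) (by omega)
            have h7 := ex1_unique h2 h3 hhU
            have h8 : h' = 0 := by omega
            subst h8
            exact h4
        have h4 := h3 (n - (x.length + 1)) (by omega)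
        have h5 : x.length + 1 + (n - (x.length + 1)) = n := by omega
        rw [h5] at h4
        have h6 := ex1_unique h1 h4 (by omega)
        omega
    refine ⟨hnl, ?_⟩
    intro i hi
    exact key i (by omega) hi
  · rintro ⟨rfl, hv⟩
    refine ⟨?_, ?_, ?_⟩
    · have := hv 0 (by omega)
      rwa [(hHS x).1] at this
    · have := hv x.length le_rfl
      rwa [(hHS x).2.1] at this
    · intro i hiU hi
      obtain ⟨b, hb⟩ := tk_step hHS x i hi
      have hb1 := toNat_le b
      have h1 := tk_le hHS x i hi.le
      have h2 := tk_le hHS x (i + 1) hi
      refine ⟨i + 1, by omega, num (x.take (x.length - i)), by omega,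
        num (x.take (x.length - (i + 1))), by omega,
        num (x.take (x.length - (i + 1))) + num (x.take (x.length - (i + 1))), by omega, rfl,
        hv i hi.le, hv (i + 1) hi, rfl, ?_⟩
      omega

theorem pf_ei (_hNU : J_NU) (hEB : J_EB) : J_EI := by
  intro M eq es x U E hx hv
  unfold EncI Pool.Agent.H8.JS.Rep
  refine and_congr Iff.rfl (forall_congr' fun j => and_congr Iff.rfl
    (forall_congr' fun p => forall_congr' fun hp => ?_))
  by_cases hj : j = 0
  · subst hj
    by_cases hpn : x.length ≤ p
    · have h1 : x[p]? = none := List.getElem?_eq_none hpn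
      have h2 : (init M x).tp 0 p = .bl := by simp [init, h1]
      rw [h2]
      constructor
      · rintro ⟨h3, -⟩
        exact h3 (Or.inr hpn)
      · intro h3
        exact ⟨fun _ => h3, fun b hb => absurd hb.2.1 (by omega)⟩
    · have hp' : p < x.length := by omega
      have h1 : x[p]? = some x[p] := List.getElem?_eq_getElem hp'
      have h2 : (init M x).tp 0 p = .bit x[p] := by simp [init, h1]
      rw [h2]
      constructor
      · rintro ⟨-, h3⟩
        exact h3 x[p] ⟨rfl, hp', (hEB x U p E x[p] hx hv hp').2 h1⟩
      · intro h3
        refine ⟨fun h => ?_, fun b hb => ?_⟩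
        · rcases h with h | h
          · exact absurd rfl h
          · exact absurd h hpn
        · have h4 := (hEB x U p E b hx hv hp').1 hb.2.2
          rw [h1] at h4
          have h5 : x[p] = b := Option.some.inj h4
          rw [← h5]
          exact h3
  · have h2 : (init M x).tp j p = .bl := by simp [init, hj]
    rw [h2]
    constructor
    · rintro ⟨h3, -⟩
      exact h3 (Or.inl hj)
    · intro h3
      exact ⟨fun _ => h3, fun b hb => absurd hb.1 hj⟩

end Pool.Agent.H65.JS
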